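import Pool.Agent.K1H14.SD.Stm

set_option autoImplicit false

namespace Pool.Agent.K1H42.SD

open Pool.Agent.K1H14.SD

open scoped symmDiff

universe u

variable {A : Type u} [Ring A] [Algebra ℂ A] {d : ℕ}

/-- one projection -/
noncomputable def pr (M : Finset (Fin d) → A) (st : A →ₗ[ℂ] A) (L : Finset (Fin d)) (ε : ℂ) :
    A →ₗ[ℂ] A :=
  (1 / 2 : ℂ) • (LinearMap.id + ε • (LinearMap.mulLeft ℂ (M L) ∘ₗ LinearMap.mulRight ℂ (st (M L))))

theorem pr_apply (M : Finset (Fin d) → A) (st : A →ₗ[ℂ] A) (L : Finset (Fin d)) (ε : ℂ) (x : A) :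
    pr M st L ε x = (1 / 2 : ℂ) • (x + ε • (M L * (x * st (M L)))) := rfl

theorem two_set {M : Finset (Fin d) → A} {st : A →ₗ[ℂ] A} (h : EvenCl M st)
    (L : Finset (Fin d)) (hL : L.card = 2) : st (M L) = - M L ∧ M L * M L = -1 := by
  have h0 : Even L.card := by rw [hL]; decide
  have h1 := h.st_M L h0
  have h2 := h.st_inv L h0
  have h3 : st (M L) = - M L := by
    rw [h1, hL]
    simp
  refine ⟨h3, ?_⟩
  rw [h3, neg_mul] at h2
  rw [← h2, neg_neg]

theorem pr_mem {M : Finset (Fin d) → A} {st : A →ₗ[ℂ] A} (h : EvenCl M st) (N : Submodule ℂ A)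
    (L : Finset (Fin d)) (hL : L.card = 2) (hN : ∀ x ∈ N, M L * x - x * M L ∈ N) (ε : ℂ) (x : A)
    (hx : x ∈ N) : pr M st L ε x ∈ N := by
  obtain ⟨h1, h2⟩ := two_set h L hL
  rw [pr_apply]
  refine N.smul_mem _ (N.add_mem hx (N.smul_mem _ ?_))
  have h3 := hN _ (hN x hx)
  have h4 : M L * (x * st (M L)) =
      x + (1 / 2 : ℂ) • (M L * (M L * x - x * M L) - (M L * x - x * M L) * M L) := by
    have e1 : M L * (M L * x) = - x := by
      rw [← mul_assoc, h2, neg_one_mul]
    have e2 : x * M L * M L = - x := by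
      rw [mul_assoc, h2, mul_neg_one]
    rw [mul_sub, sub_mul, e1, e2]
    have e3 : - x - M L * (x * M L) - (M L * x * M L - - x) =
        (2 : ℂ) • (- x - M L * (x * M L)) := by
      rw [two_smul, mul_assoc]
      abel
    rw [e3, smul_smul, show (1 / 2 : ℂ) * 2 = 1 by norm_num, one_smul, h1, mul_neg, mul_neg]
    abel
  rw [h4]
  exact N.add_mem hx (N.smul_mem _ h3)

theorem pr_M {M : Finset (Fin d) → A} {st : A →ₗ[ℂ] A} (h : EvenCl M st)
    (L : Finset (Fin d)) (hL : L.card = 2) (K K' : Finset (Fin d)) (hK' : Even K'.card) :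
    pr M st L ((-1) ^ (L ∩ K).card) (M K') =
      if (Even (L ∩ K).card ↔ Even (L ∩ K').card) then M K' else 0 := by
  obtain ⟨h1, h2⟩ := two_set h L hL
  have h0 : Even L.card := by rw [hL]; decide
  have h3 : M L * (M K' * st (M L)) = (-1 : ℂ) ^ (L ∩ K').card • M K' := by
    rw [← mul_assoc, h.comm L K' h0 hK', smul_mul_assoc, mul_assoc, h1, mul_neg, h2, neg_neg,
      mul_one]
  rw [pr_apply, h3]
  rcases Nat.even_or_odd (L ∩ K).card with ha | ha <;>
    rcases Nat.even_or_odd (L ∩ K').card with hb | hb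
  · rw [if_pos (by simp [ha, hb]), ha.neg_one_pow, hb.neg_one_pow, one_smul, one_smul,
      ← two_smul ℂ (M K'), smul_smul]
    norm_num
  · have hb' := Nat.not_even_iff_odd.2 hb
    rw [if_neg (by tauto), ha.neg_one_pow, hb.neg_one_pow, one_smul, neg_one_smul, add_neg_cancel,
      smul_zero]
  · have ha' := Nat.not_even_iff_odd.2 ha
    rw [if_neg (by tauto), ha.neg_one_pow, hb.neg_one_pow, one_smul, neg_one_smul, add_neg_cancel,
      smul_zero]
  · have ha' := Nat.not_even_iff_odd.2 ha
    have hb' := Nat.not_even_iff_odd.2 hb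
    rw [if_pos (by tauto), ha.neg_one_pow, hb.neg_one_pow, smul_smul,
      show (-1 : ℂ) * (-1) = 1 by norm_num, one_smul, ← two_smul ℂ (M K'), smul_smul,
      show (1 / 2 : ℂ) * 2 = 1 by norm_num, one_smul]

/-- the projection attached to a list -/
noncomputable def PK (M : Finset (Fin d) → A) (st : A →ₗ[ℂ] A) (z : Fin d) (K : Finset (Fin d)) :
    List (Fin d) → (A →ₗ[ℂ] A)
  | [] => LinearMap.id
  | j :: l => pr M st {z, j} ((-1) ^ (({z, j} : Finset (Fin d)) ∩ K).card) ∘ₗ PK M st z K l

theorem PK_mem {M : Finset (Fin d) → A} {st : A →ₗ[ℂ] A} (h : EvenCl M st) (N : Submodule ℂ A)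
    (hN : ∀ K : Finset (Fin d), K.card = 2 → ∀ x ∈ N, M K * x - x * M K ∈ N) (z : Fin d)
    (K : Finset (Fin d)) (l : List (Fin d)) (hl : ∀ j ∈ l, j ≠ z) (x : A) (hx : x ∈ N) :
    PK M st z K l x ∈ N := by
  induction l with
  | nil => exact hx
  | cons j l ih =>
    have hc : ({z, j} : Finset (Fin d)).card = 2 :=
      Finset.card_pair (hl j (List.mem_cons_self ..)).symm
    exact pr_mem h N _ hc (hN _ hc) _ _ (ih fun i hi => hl i (List.mem_cons_of_mem _ hi))

theorem PK_M {M : Finset (Fin d) → A} {st : A →ₗ[ℂ] A} (h : EvenCl M st) (z : Fin d)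
    (K K' : Finset (Fin d)) (hK' : Even K'.card) (l : List (Fin d)) (hl : ∀ j ∈ l, j ≠ z) :
    PK M st z K l (M K') = if (∀ j ∈ l, (Even (({z, j} : Finset (Fin d)) ∩ K).card ↔
      Even (({z, j} : Finset (Fin d)) ∩ K').card)) then M K' else 0 := by
  induction l with
  | nil => simp [PK]
  | cons j l ih =>
    have hc : ({z, j} : Finset (Fin d)).card = 2 :=
      Finset.card_pair (hl j (List.mem_cons_self ..)).symm
    show pr M st {z, j} ((-1) ^ (({z, j} : Finset (Fin d)) ∩ K).card) (PK M st z K l (M K')) = _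
    rw [ih fun i hi => hl i (List.mem_cons_of_mem _ hi)]
    by_cases h1 : ∀ j ∈ l, (Even (({z, j} : Finset (Fin d)) ∩ K).card ↔
      Even (({z, j} : Finset (Fin d)) ∩ K').card)
    · rw [if_pos h1, pr_M h _ hc K K' hK']
      by_cases h2 : (Even (({z, j} : Finset (Fin d)) ∩ K).card ↔
        Even (({z, j} : Finset (Fin d)) ∩ K').card)
      · rw [if_pos h2, if_pos]
        intro i hi
        rcases List.mem_cons.1 hi with rfl | hi
        · exact h2
        · exact h1 i hi
      · rw [if_neg h2, if_neg]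
        intro h3
        exact h2 (h3 j (List.mem_cons_self ..))
    · rw [if_neg h1, map_zero, if_neg]
      intro h3
      exact h1 fun i hi => h3 i (List.mem_cons_of_mem _ hi)

theorem even_pair (z j : Fin d) (hj : j ≠ z) (K : Finset (Fin d)) :
    Even (({z, j} : Finset (Fin d)) ∩ K).card ↔ (z ∈ K ↔ j ∈ K) := by
  by_cases hz : z ∈ K <;> by_cases hjk : j ∈ K
  · rw [Finset.insert_inter_of_mem hz, Finset.singleton_inter_of_mem hjk,
      Finset.card_pair hj.symm]
    simp [hz, hjk]
  · rw [Finset.insert_inter_of_mem hz, Finset.singleton_inter_of_notMem hjk]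
    simp [hz, hjk]
  · rw [Finset.insert_inter_of_notMem hz, Finset.singleton_inter_of_mem hjk]
    simp [hz, hjk]
  · rw [Finset.insert_inter_of_notMem hz, Finset.singleton_inter_of_notMem hjk]
    simp [hz, hjk]

theorem eq_of_pattern (hd : Odd d) (z : Fin d) (K K' : Finset (Fin d)) (hK : Even K.card)
    (hK' : Even K'.card)
    (h : ∀ j, j ≠ z → (Even (({z, j} : Finset (Fin d)) ∩ K).card ↔
      Even (({z, j} : Finset (Fin d)) ∩ K').card)) : K' = K := by
  by_cases h1 : (z ∈ K ↔ z ∈ K')
  · ext j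
    by_cases hj : j = z
    · subst hj
      exact h1.symm
    · have := h j hj
      rw [even_pair z j hj, even_pair z j hj] at this
      tauto
  · exfalso
    have h2 : K' = Kᶜ := by
      ext j
      rw [Finset.mem_compl]
      by_cases hj : j = z
      · subst hj
        tauto
      · have := h j hj
        rw [even_pair z j hj, even_pair z j hj] at this
        tauto
    have h3 : K.card + K'.card = d := by
      rw [h2, Finset.card_add_card_compl, Fintype.card_fin]
    rw [← h3] at hd
    have := hK.add hK'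
    exact (Nat.not_even_iff_odd.2 hd) this

theorem exists_coeff {M : Finset (Fin d) → A} {st : A →ₗ[ℂ] A} (h : EvenCl M st) (x : A) :
    ∃ c : Finset (Fin d) → ℂ, x = ∑ K ∈ evs d, c K • M K := by
  have hx := h.span x
  induction hx using Submodule.span_induction with
  | mem x hx =>
    obtain ⟨K, hK, rfl⟩ := hx
    refine ⟨fun L => if L = K then 1 else 0, ?_⟩
    rw [Finset.sum_eq_single K]
    · simp
    · intro L _ hL
      simp [hL]
    · intro hK'
      exact absurd (show K ∈ evs d from Finset.mem_filter.2 ⟨Finset.mem_univ _, hK⟩) hK'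
  | zero => exact ⟨fun _ => 0, by simp⟩
  | add x y _ _ hx hy =>
    obtain ⟨c, hc⟩ := hx
    obtain ⟨c', hc'⟩ := hy
    refine ⟨fun L => c L + c' L, ?_⟩
    rw [hc, hc', ← Finset.sum_add_distrib]
    simp only [add_smul]
  | smul a x _ hx =>
    obtain ⟨c, hc⟩ := hx
    refine ⟨fun L => a * c L, ?_⟩
    rw [hc, Finset.smul_sum]
    simp only [mul_smul]

theorem t_SPAN : S_SPAN.{u} := by
  intro A _ _ d M st N h hN x hx
  obtain ⟨c, hc⟩ := exists_coeff h x
  have hd := h.odd
  have hpos : 0 < d := hd.pos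
  let z : Fin d := ⟨0, hpos⟩
  let l : List (Fin d) := (Finset.univ.erase z).toList
  have hl : ∀ j ∈ l, j ≠ z := by
    intro j hj
    exact Finset.ne_of_mem_erase (Finset.mem_toList.1 hj)
  have hl' : ∀ j, j ≠ z → j ∈ l := by
    intro j hj
    exact Finset.mem_toList.2 (Finset.mem_erase.2 ⟨hj, Finset.mem_univ _⟩)
  have key : ∀ K ∈ evs d, c K • M K ∈ N := by
    intro K hK
    have hKe : Even K.card := (Finset.mem_filter.1 hK).2
    have h1 : PK M st z K l x = c K • M K := by
      rw [hc, map_sum, Finset.sum_eq_single K]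
      · rw [map_smul, PK_M h z K K hKe l hl, if_pos]
        intro j _
        exact Iff.rfl
      · intro K' hK' hne
        have hK'e : Even K'.card := (Finset.mem_filter.1 hK').2
        rw [map_smul, PK_M h z K K' hK'e l hl, if_neg, smul_zero]
        intro h2
        exact hne (eq_of_pattern hd z K K' hKe hK'e fun j hj => h2 j (hl' j hj))
      · intro h2
        exact absurd hK h2
    rw [← h1]
    exact PK_mem h N hN z K l hl x hx
  rw [hc]
  refine Submodule.sum_mem _ fun K hK => ?_
  have hKe : Even K.card := (Finset.mem_filter.1 hK).2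
  by_cases h0 : c K = 0
  · rw [h0, zero_smul]
    exact Submodule.zero_mem _
  · refine Submodule.smul_mem _ _ (Submodule.subset_span ⟨K, hKe, ?_, rfl⟩)
    have h1 := N.smul_mem (c K)⁻¹ (key K hK)
    rwa [smul_smul, inv_mul_cancel₀ h0, one_smul] at h1

end Pool.Agent.K1H42.SD
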